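import Mathlib

/-!
# The first order term of an invariance property of a multilinear form
-/

set_option autoImplicit false

namespace Pool.Agent.TH686.MT

open Module Filter Topology

variable {K : Type*} [NontriviallyNormedField K] {n : ℕ} {κ : Type*} [Fintype κ] [DecidableEq κ]

theorem mult_eq (φ : MultilinearMap K (fun _ : κ => Fin n → K) K) (v : κ → Fin n → K) :
    φ v = ∑ r : κ → Fin n, (∏ l, v l (r l)) * φ (fun l => Pi.single (r l) 1) := by
  have e : v = fun l => ∑ j : Fin n, v l j • (Pi.single j (1 : K) : Fin n → K) := by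
    funext l
    ext i
    rw [Finset.sum_apply, Finset.sum_eq_single i]
    · rw [Pi.smul_apply, Pi.single_eq_same, smul_eq_mul, mul_one]
    · intro j _ hj
      rw [Pi.smul_apply, Pi.single_eq_of_ne hj.symm, smul_zero]
    · intro h
      exact absurd (Finset.mem_univ i) h
  conv_lhs => rw [e]
  rw [MultilinearMap.map_sum]
  refine Finset.sum_congr rfl fun r _ => ?_
  rw [MultilinearMap.map_smul_univ, smul_eq_mul]

theorem mult_cont (φ : MultilinearMap K (fun _ : κ => Fin n → K) K) : Continuous φ := by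
  have e : (φ : (κ → Fin n → K) → K) =
      fun v => ∑ r : κ → Fin n, (∏ l, v l (r l)) * φ (fun l => Pi.single (r l) 1) := by
    funext v
    exact mult_eq φ v
  rw [e]
  refine continuous_finsetSum _ fun r _ => Continuous.mul ?_ continuous_const
  refine continuous_finsetProd _ fun l _ => ?_
  exact (continuous_apply (r l)).comp (continuous_apply l)

/-- The derivative along a sequence. -/
theorem mult_lim (φ : MultilinearMap K (fun _ : κ => Fin n → K) K) (t : ℕ → K)
    (ht0 : ∀ k, t k ≠ 0) (ht : Tendsto t atTop (𝓝 0)) (v : κ → Fin n → K)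
    (w : ℕ → κ → Fin n → K) (w₀ : κ → Fin n → K) (hw : Tendsto w atTop (𝓝 w₀)) :
    Tendsto (fun k => (t k)⁻¹ * (φ (v + t k • w k) - φ v)) atTop
      (𝓝 (∑ j, φ (Function.update v j (w₀ j)))) := by
  let Φ : ContinuousMultilinearMap K (fun _ : κ => Fin n → K) K := ⟨φ, mult_cont φ⟩
  have h1 : HasFDerivAt Φ (Φ.linearDeriv v) v := Φ.hasFDerivAt v
  have h2 := (hasFDerivWithinAt_univ.2 h1).lim (l := atTop) (c := fun k => (t k)⁻¹)
    (d := fun k => t k • w k) (v := w₀) (by
      have := ht.smul hw
      rwa [zero_smul] at this) (Eventually.of_forall fun _ => Set.mem_univ _) (by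
      refine hw.congr fun k => ?_
      rw [smul_smul, inv_mul_cancel₀ (ht0 k), one_smul])
  rw [ContinuousMultilinearMap.linearDeriv_apply] at h2
  exact h2

/-- The first order term of an invariance property. -/
theorem padd (φ : MultilinearMap K (fun _ : κ => Fin n → K) K) (N M : ℕ)
    (t : ℕ → K) (ht0 : ∀ k, t k ≠ 0) (ht : Tendsto t atTop (𝓝 0))
    (Y : ℕ → Matrix (Fin n) (Fin n) K) (y : ℕ → K) (Y₀ : Matrix (Fin n) (Fin n) K) (y₀ : K)
    (hY : Tendsto Y atTop (𝓝 Y₀)) (hy : Tendsto y atTop (𝓝 y₀))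
    (h : ∀ (k : ℕ) (v : κ → Fin n → K),
      φ (fun l => ((1 + t k • Y k) ^ N).mulVec (v l)) = (1 + t k * y k) ^ M * φ v)
    (v : κ → Fin n → K) :
    (N : K) * ∑ j, φ (Function.update v j (Y₀.mulVec (v j))) = M * y₀ * φ v := by
  -- the geometric sums
  set B : ℕ → Matrix (Fin n) (Fin n) K := fun k => ∑ i ∈ Finset.range N, (1 + t k • Y k) ^ i with hB
  have hBlim : Tendsto (fun k => B k * Y k) atTop (𝓝 ((N : K) • Y₀)) := by
    have h1 : Tendsto (fun k => (1 : Matrix (Fin n) (Fin n) K) + t k • Y k) atTop (𝓝 1) := by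
      have := (tendsto_const_nhds (x := (1 : Matrix (Fin n) (Fin n) K))).add (ht.smul hY)
      rwa [zero_smul, add_zero] at this
    have h2 : Tendsto B atTop (𝓝 (∑ i ∈ Finset.range N, (1 : Matrix (Fin n) (Fin n) K) ^ i)) :=
      tendsto_finsetSum _ fun i _ => h1.pow i
    have h3 := h2.mul hY
    simp only [one_pow, Finset.sum_const, Finset.card_range] at h3
    rw [← Nat.cast_smul_eq_nsmul K, smul_mul_assoc, one_mul] at h3
    exact h3
  have e1 : ∀ k, (1 + t k • Y k) ^ N = 1 + t k • (B k * Y k) := by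
    intro k
    have h1 := geom_sum_mul (1 + t k • Y k) N
    rw [add_sub_cancel_left] at h1
    have h2 : B k * (t k • Y k) = (1 + t k • Y k) ^ N - 1 := h1
    rw [← mul_smul_comm, h2, add_sub_cancel]
  -- the scalar
  set c : ℕ → K := fun k => ∑ i ∈ Finset.range M, (1 + t k * y k) ^ i with hc
  have hclim : Tendsto (fun k => c k * y k) atTop (𝓝 ((M : K) * y₀)) := by
    have h1 : Tendsto (fun k => (1 : K) + t k * y k) atTop (𝓝 1) := by
      have := (tendsto_const_nhds (x := (1 : K))).add (ht.mul hy)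
      rwa [zero_mul, add_zero] at this
    have h2 : Tendsto c atTop (𝓝 (∑ i ∈ Finset.range M, (1 : K) ^ i)) :=
      tendsto_finsetSum _ fun i _ => h1.pow i
    have h3 := h2.mul hy
    simp only [one_pow, Finset.sum_const, Finset.card_range, nsmul_eq_mul, mul_one] at h3
    exact h3
  have e2 : ∀ k, (1 + t k * y k) ^ M = 1 + t k * (c k * y k) := by
    intro k
    have h1 := geom_sum_mul (1 + t k * y k) M
    rw [add_sub_cancel_left] at h1
    have h2 : c k * (t k * y k) = (1 + t k * y k) ^ M - 1 := h1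
    rw [mul_left_comm, h2, add_sub_cancel]
  -- the limits
  have h1 := mult_lim φ t ht0 ht v (fun k l => (B k * Y k).mulVec (v l))
    (fun l => ((N : K) • Y₀).mulVec (v l)) (by
      rw [tendsto_pi_nhds]
      intro l
      rw [tendsto_pi_nhds]
      intro i
      simp only [Matrix.mulVec, dotProduct]
      refine tendsto_finsetSum _ fun j _ => Tendsto.mul ?_ tendsto_const_nhds
      exact ((continuous_id.matrix_elem i j).tendsto _).comp hBlim)
  have h2 : ∀ k, (t k)⁻¹ * (φ (v + t k • fun l => (B k * Y k).mulVec (v l)) - φ v) =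
      c k * y k * φ v := by
    intro k
    have h3 := h k v
    rw [e1, e2] at h3
    have h4 : (v + t k • fun l => (B k * Y k).mulVec (v l)) =
        fun l => (1 + t k • (B k * Y k)).mulVec (v l) := by
      funext l
      rw [Pi.add_apply, Pi.smul_apply, Matrix.add_mulVec, Matrix.one_mulVec, Matrix.smul_mulVec]
    rw [h4, h3]
    field_simp [ht0 k]
    ring
  have h3 : Tendsto (fun k => c k * y k * φ v) atTop (𝓝 (M * y₀ * φ v)) :=
    hclim.mul tendsto_const_nhds
  have h4 := tendsto_nhds_unique (h1.congr h2) h3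
  rw [← h4, Finset.mul_sum]
  refine Finset.sum_congr rfl fun j _ => ?_
  rw [Matrix.smul_mulVec, MultilinearMap.map_update_smul, smul_eq_mul]

end Pool.Agent.TH686.MT
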