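import Pool.Agent.TH686.MT.Pad
import Pool.Agent.TH686.MT.Der
import Pool.Agent.H204R3.SP.Lie

/-!
# The commutant of the Lie algebra of the Tate classes
-/

set_option autoImplicit false

namespace Pool.Agent.TH686.MT

open Module Filter Topology Pool.Agent.H204R3.SP

variable {ℓ : ℕ} [hℓ : Fact ℓ.Prime] {n : ℕ}

theorem tk0 (k : ℕ) : ((ℓ : ℚ_[ℓ]) ^ k) ≠ 0 :=
  pow_ne_zero _ (by exact_mod_cast hℓ.out.ne_zero)

theorem norm_tk (k : ℕ) : ‖((ℓ : ℚ_[ℓ]) ^ k)‖ = (ℓ : ℝ)⁻¹ ^ k := by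
  rw [norm_pow, Padic.norm_p]

theorem tk_lim : Tendsto (fun k : ℕ => (ℓ : ℚ_[ℓ]) ^ k) atTop (𝓝 0) := by
  rw [tendsto_zero_iff_norm_tendsto_zero]
  simp only [norm_tk]
  exact tendsto_pow_atTop_nhds_zero_of_lt_one (inv_nonneg.2 lp.le) (inv_lt_one_of_one_lt₀ lp1)

/-- The difference quotients. -/
noncomputable def dq (T : Matrix (Fin n) (Fin n) ℚ_[ℓ]) (k : ℕ) : Matrix (Fin n) (Fin n) ℚ_[ℓ] :=
  ((ℓ : ℚ_[ℓ]) ^ k)⁻¹ • (T ^ (ℓ ^ k) - 1)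

theorem dq_eq (T : Matrix (Fin n) (Fin n) ℚ_[ℓ]) (k : ℕ) :
    1 + (ℓ : ℚ_[ℓ]) ^ k • dq T k = T ^ (ℓ ^ k) := by
  rw [dq, smul_smul, mul_inv_cancel₀ (tk0 k), one_smul, add_sub_cancel]

theorem bd_dq {T : Matrix (Fin n) (Fin n) ℚ_[ℓ]} (hT : Bd ((ℓ : ℝ)⁻¹ ^ 2) (T - 1)) (k : ℕ) :
    Bd 1 (dq T k) := by
  have h1 := (pada hT k).smul (((ℓ : ℚ_[ℓ]) ^ k)⁻¹)
  refine h1.mono ?_
  have hl0 : (0 : ℝ) < (ℓ : ℝ)⁻¹ := inv_pos.2 lp
  have hl1 : (ℓ : ℝ)⁻¹ ≤ 1 := inv_le_one_of_one_le₀ lp1.le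
  rw [norm_inv, norm_tk, pow_add, mul_comm ((ℓ : ℝ)⁻¹ ^ 2), ← mul_assoc,
    inv_mul_cancel₀ (pow_pos hl0 k).ne', one_mul]
  exact pow_le_one₀ hl0.le hl1

/-- The scalar case. -/
theorem bd_dq_scalar {x : ℚ_[ℓ]} (hx : ‖x - 1‖ ≤ (ℓ : ℝ)⁻¹ ^ 2) (k : ℕ) :
    ‖((ℓ : ℚ_[ℓ]) ^ k)⁻¹ * (x ^ (ℓ ^ k) - 1)‖ ≤ 1 := by
  have h1 : Bd ((ℓ : ℝ)⁻¹ ^ 2) (x • (1 : Matrix (Fin 1) (Fin 1) ℚ_[ℓ]) - 1) := by
    intro i j
    have e : i = j := Subsingleton.elim _ _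
    subst e
    rw [Matrix.sub_apply, Matrix.smul_apply, Matrix.one_apply_eq, smul_eq_mul, mul_one]
    exact hx
  have h2 := bd_dq h1 k 0 0
  rw [dq, smul_pow, one_pow, Matrix.smul_apply, Matrix.sub_apply, Matrix.smul_apply,
    Matrix.one_apply_eq, smul_eq_mul, smul_eq_mul, mul_one] at h2
  exact h2

variable {V : Type*} [AddCommGroup V] [Module ℚ_[ℓ] V]

theorem mulVec_symm (e : Basis (Fin n) ℚ_[ℓ] V) (A : Matrix (Fin n) (Fin n) ℚ_[ℓ])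
    (w : Fin n → ℚ_[ℓ]) :
    e.equivFun.symm (A.mulVec w) = Matrix.toLin e e A (e.equivFun.symm w) := by
  apply e.equivFun.injective
  rw [LinearEquiv.apply_symm_apply]
  have h := LinearMap.toMatrix_mulVec_repr e e (Matrix.toLin e e A) (e.equivFun.symm w)
  rw [LinearMap.toMatrix_toLin] at h
  have h2 : (e.repr (e.equivFun.symm w) : Fin n → ℚ_[ℓ]) = w := by
    have := e.equivFun.apply_symm_apply w
    rw [Basis.equivFun_apply] at this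
    exact this
  rw [h2] at h
  rw [h, Basis.equivFun_apply]

/-- The limits of the difference quotients are in the Lie algebra, up to a scalar. -/
theorem lim_mem (e : Basis (Fin n) ℚ_[ℓ] V) {Γ : Type*} [Group Γ]
    (ρ : Representation ℚ_[ℓ] Γ V) (χ : Γ →* ℚ_[ℓ]) (s : Γ) (f : ℕ → ℕ) (hf : StrictMono f)
    (Y₀ : Matrix (Fin n) (Fin n) ℚ_[ℓ]) (y₀ : ℚ_[ℓ])
    (hY : Tendsto (fun k => dq (LinearMap.toMatrix e e (ρ s)) (f k)) atTop (𝓝 Y₀))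
    (hy : Tendsto (fun k => ((ℓ : ℚ_[ℓ]) ^ (f k))⁻¹ * (χ s ^ (ℓ ^ (f k)) - 1)) atTop (𝓝 y₀)) :
    Matrix.toLin e e Y₀ - (y₀ / 2) • 1 ∈ lieT ρ χ := by
  intro m φ hφ v
  obtain ⟨Δ, hΔ, hφ⟩ := hφ
  obtain ⟨N, hN, -, hsN⟩ := Subgroup.exists_pow_mem_of_index_ne_zero hΔ.index_ne_zero s
  have hM2 : ∀ j : ℕ, (LinearMap.toMatrix e e (ρ s)) ^ j = LinearMap.toMatrix e e (ρ (s ^ j)) := by
    intro j
    rw [map_pow, LinearMap.toMatrix_pow]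
  have h1 := padd (φ.compLinearMap (fun _ => (e.equivFun.symm : (Fin n → ℚ_[ℓ]) →ₗ[ℚ_[ℓ]] V)))
    N (N * m) (fun k => (ℓ : ℚ_[ℓ]) ^ (f k)) (fun k => tk0 _) (tk_lim.comp hf.tendsto_atTop)
    (fun k => dq (LinearMap.toMatrix e e (ρ s)) (f k))
    (fun k => ((ℓ : ℚ_[ℓ]) ^ (f k))⁻¹ * (χ s ^ (ℓ ^ (f k)) - 1)) Y₀ y₀ hY hy (by
      intro k w
      simp only [dq_eq, MultilinearMap.compLinearMap_apply, LinearEquiv.coe_coe]
      rw [← mul_assoc, mul_inv_cancel₀ (tk0 _), one_mul, add_sub_cancel]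
      have h2 : (s ^ N) ^ (ℓ ^ (f k)) ∈ Δ := Δ.pow_mem hsN _
      have h3 := hφ _ h2 (fun l => e.equivFun.symm (w l))
      rw [map_pow, map_pow] at h3
      have h4 : ∀ l, e.equivFun.symm
          (((LinearMap.toMatrix e e (ρ s) ^ ℓ ^ f k) ^ N).mulVec (w l)) =
          ρ ((s ^ N) ^ (ℓ ^ (f k))) (e.equivFun.symm (w l)) := by
        intro l
        rw [mulVec_symm, ← pow_mul, hM2, Matrix.toLin_toMatrix, ← pow_mul, mul_comm N]
      simp only [h4]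
      have h5 : χ ((s ^ N) ^ (ℓ ^ f k)) = (χ s ^ N) ^ (ℓ ^ f k) := by rw [map_pow, map_pow]
      rw [map_pow, map_pow, h3, h5]
      congr 1
      rw [← pow_mul, ← pow_mul, ← pow_mul]
      congr 1
      ring) (fun l => e.equivFun (v l))
  have h5 : ∀ j, (φ.compLinearMap (fun _ => (e.equivFun.symm :
      (Fin n → ℚ_[ℓ]) →ₗ[ℚ_[ℓ]] V))) (Function.update (fun l => e.equivFun (v l)) j
        (Y₀.mulVec (e.equivFun (v j)))) =
      φ (Function.update v j (Matrix.toLin e e Y₀ (v j))) := by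
    intro j
    rw [MultilinearMap.compLinearMap_apply]
    congr 1
    funext l
    rw [LinearEquiv.coe_coe]
    rcases eq_or_ne l j with rfl | hlj
    · rw [Function.update_self, Function.update_self, mulVec_symm, LinearEquiv.symm_apply_apply]
    · rw [Function.update_of_ne hlj, Function.update_of_ne hlj, LinearEquiv.symm_apply_apply]
  have h6 : (φ.compLinearMap (fun _ => (e.equivFun.symm :
      (Fin n → ℚ_[ℓ]) →ₗ[ℚ_[ℓ]] V))) (fun l => e.equivFun (v l)) = φ v := by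
    rw [MultilinearMap.compLinearMap_apply]
    congr 1
    funext l
    rw [LinearEquiv.coe_coe, LinearEquiv.symm_apply_apply]
  rw [Finset.sum_congr rfl (fun j _ => h5 j), h6, Nat.cast_mul] at h1
  have hN0 : (N : ℚ_[ℓ]) ≠ 0 := by exact_mod_cast hN.ne'
  have h7 : ∑ j, φ (Function.update v j (Matrix.toLin e e Y₀ (v j))) = m * y₀ * φ v := by
    apply mul_left_cancel₀ hN0
    rw [h1]
    ring
  have h8 : ∀ j, φ (Function.update v j ((Matrix.toLin e e Y₀ - (y₀ / 2) • 1) (v j))) =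
      φ (Function.update v j (Matrix.toLin e e Y₀ (v j))) - y₀ / 2 * φ v := by
    intro j
    rw [LinearMap.sub_apply, MultilinearMap.map_update_sub, LinearMap.smul_apply,
      MultilinearMap.map_update_smul, Module.End.one_apply, Function.update_eq_self, smul_eq_mul]
  rw [Finset.sum_congr rfl (fun j _ => h8 j), Finset.sum_sub_distrib, h7, Finset.sum_const,
    Finset.card_univ, Fintype.card_prod, Fintype.card_fin, Fintype.card_fin, nsmul_eq_mul,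
    Nat.cast_mul]
  push_cast
  ring

/-- An endomorphism which commutes with the Lie algebra commutes with the elements of the group
which are congruent to one. -/
theorem comm_elt (e : Basis (Fin n) ℚ_[ℓ] V) {Γ : Type*} [Group Γ]
    (ρ : Representation ℚ_[ℓ] Γ V) (χ : Γ →* ℚ_[ℓ]) (s : Γ)
    (hs : Bd ((ℓ : ℝ)⁻¹ ^ 2) (LinearMap.toMatrix e e (ρ s) - 1))
    (hχ : ‖χ s - 1‖ ≤ (ℓ : ℝ)⁻¹ ^ 2)
    (P : Module.End ℚ_[ℓ] V) (hP : ∀ X ∈ lieT ρ χ, X * P = P * X) : ρ s * P = P * ρ s := by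
  set T := LinearMap.toMatrix e e (ρ s) with hT
  set Q := LinearMap.toMatrix e e P with hQ
  let z : ℕ → (Fin n → Fin n → ℚ_[ℓ]) × ℚ_[ℓ] := fun k =>
    (dq T k, ((ℓ : ℚ_[ℓ]) ^ k)⁻¹ * (χ s ^ (ℓ ^ k) - 1))
  have hz : ∀ k, z k ∈ Metric.closedBall (0 : (Fin n → Fin n → ℚ_[ℓ]) × ℚ_[ℓ]) 1 := by
    intro k
    rw [mem_closedBall_zero_iff, Prod.norm_def]
    refine max_le ?_ (bd_dq_scalar hχ k)
    rw [pi_norm_le_iff_of_nonneg zero_le_one]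
    intro i
    rw [pi_norm_le_iff_of_nonneg zero_le_one]
    intro j
    exact bd_dq hs k i j
  obtain ⟨a, -, f, hf, hlim⟩ := (isCompact_closedBall
    (0 : (Fin n → Fin n → ℚ_[ℓ]) × ℚ_[ℓ]) 1).tendsto_subseq hz
  obtain ⟨Y₀, hY₀⟩ : ∃ Y₀ : Matrix (Fin n) (Fin n) ℚ_[ℓ], Y₀ = a.1 := ⟨a.1, rfl⟩
  have hY : Tendsto (fun k => dq T (f k)) atTop (𝓝 Y₀) := by
    rw [hY₀]
    exact (continuous_fst.tendsto a).comp hlim
  have hy : Tendsto (fun k => ((ℓ : ℚ_[ℓ]) ^ (f k))⁻¹ * (χ s ^ (ℓ ^ (f k)) - 1)) atTop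
      (𝓝 a.2) := (continuous_snd.tendsto a).comp hlim
  have hX := hP _ (lim_mem e ρ χ s f hf Y₀ a.2 hY hy)
  have hX2 : Matrix.toLin e e Y₀ * P = P * Matrix.toLin e e Y₀ := by
    rw [sub_mul, mul_sub, smul_mul_assoc, mul_smul_comm, one_mul, mul_one] at hX
    exact sub_left_injective hX
  have hYQ : Y₀ * Q = Q * Y₀ := by
    have h1 := congrArg (LinearMap.toMatrix e e) hX2
    rw [LinearMap.toMatrix_mul, LinearMap.toMatrix_mul, LinearMap.toMatrix_toLin] at h1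
    exact h1
  -- the commutators tend to zero
  have hl : Tendsto (fun k => dq T (f k) * Q - Q * dq T (f k)) atTop (𝓝 0) := by
    have h1 := (hY.mul (tendsto_const_nhds (x := Q))).sub ((tendsto_const_nhds (x := Q)).mul hY)
    rwa [hYQ, sub_self] at h1
  have hz : ∀ r : ℝ, 0 < r → Bd r (T * Q - Q * T) := by
    intro r hr
    have h2 : ∀ᶠ k in atTop, ∀ i j, ‖(dq T (f k) * Q - Q * dq T (f k)) i j‖ < r := by
      rw [eventually_all]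
      intro i
      rw [eventually_all]
      intro j
      have h3 : Tendsto (fun k => (dq T (f k) * Q - Q * dq T (f k)) i j) atTop (𝓝 0) :=
        ((continuous_id.matrix_elem i j).tendsto (0 : Matrix (Fin n) (Fin n) ℚ_[ℓ])).comp hl
      have h4 := h3.norm
      rw [norm_zero] at h4
      exact h4.eventually (gt_mem_nhds hr)
    obtain ⟨k, hk⟩ := h2.exists
    refine padb_iter hs hr.le (f k) ?_
    have h3 : Bd r (dq T (f k) * Q - Q * dq T (f k)) := fun i j => (hk i j).le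
    have h4 := h3.smul ((ℓ : ℚ_[ℓ]) ^ (f k))
    rw [norm_tk] at h4
    have h5 : (ℓ : ℚ_[ℓ]) ^ (f k) • (dq T (f k) * Q - Q * dq T (f k)) =
        T ^ (ℓ ^ f k) * Q - Q * T ^ (ℓ ^ f k) := by
      rw [← dq_eq T (f k)]
      rw [smul_sub, add_mul, mul_add, one_mul, mul_one, smul_mul_assoc, mul_smul_comm]
      abel
    rw [h5] at h4
    exact h4
  have hTQ : T * Q - Q * T = 0 := by
    ext i j
    rw [Matrix.zero_apply, ← norm_eq_zero]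
    refine le_antisymm (le_of_forall_pos_le_add fun r hr => ?_) (norm_nonneg _)
    rw [zero_add]
    exact hz r hr i j
  apply (LinearMap.toMatrix e e).injective
  rw [LinearMap.toMatrix_mul, LinearMap.toMatrix_mul]
  exact sub_eq_zero.1 hTQ

/-- A subgroup of finite index on which the representation is congruent to one. -/
theorem nbh (e : Basis (Fin n) ℚ_[ℓ] V) {Γ : Type*} [Group Γ] [TopologicalSpace Γ]
    [IsTopologicalGroup Γ] [CompactSpace Γ]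
    (ρ : Representation ℚ_[ℓ] Γ V) (χ : Γ →* ℚ_[ℓ])
    (hρ : ∀ i j, Continuous fun s => LinearMap.toMatrix e e (ρ s) i j) (hχ : Continuous χ) :
    ∃ Δ : Subgroup Γ, Δ.FiniteIndex ∧ ∀ s ∈ Δ,
      Bd ((ℓ : ℝ)⁻¹ ^ 2) (LinearMap.toMatrix e e (ρ s) - 1) ∧ ‖χ s - 1‖ ≤ (ℓ : ℝ)⁻¹ ^ 2 := by
  have hl0 : (0 : ℝ) < (ℓ : ℝ)⁻¹ := inv_pos.2 lp
  have hl1 : (ℓ : ℝ)⁻¹ ≤ 1 := inv_le_one_of_one_le₀ lp1.le
  have hc0 : 0 < (ℓ : ℝ)⁻¹ ^ 2 := pow_pos hl0 2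
  have hc1 : (ℓ : ℝ)⁻¹ ^ 2 ≤ 1 := pow_le_one₀ hl0.le hl1
  have hmul : ∀ s t : Γ, LinearMap.toMatrix e e (ρ (s * t)) =
      LinearMap.toMatrix e e (ρ s) * LinearMap.toMatrix e e (ρ t) := by
    intro s t
    rw [map_mul, LinearMap.toMatrix_mul]
  have h1 : LinearMap.toMatrix e e (ρ 1) = 1 := by
    rw [map_one, LinearMap.toMatrix_one]
  have hb : ∀ s t : Γ, Bd ((ℓ : ℝ)⁻¹ ^ 2) (LinearMap.toMatrix e e (ρ s) - 1) →
      Bd ((ℓ : ℝ)⁻¹ ^ 2) (LinearMap.toMatrix e e (ρ t) - 1) →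
      Bd ((ℓ : ℝ)⁻¹ ^ 2) (LinearMap.toMatrix e e (ρ (s * t)) - 1) := by
    intro s t hs ht
    have e1 : LinearMap.toMatrix e e (ρ (s * t)) - 1 =
        LinearMap.toMatrix e e (ρ s) * (LinearMap.toMatrix e e (ρ t) - 1) +
          (LinearMap.toMatrix e e (ρ s) - 1) := by
      rw [hmul, mul_sub, mul_one]
      abel
    rw [e1]
    have h2 := (bd_one_of hc1 hs).mul zero_le_one hc0.le ht
    rw [one_mul] at h2
    exact h2.add hs
  have hbc : ∀ x y : ℚ_[ℓ], ‖x - 1‖ ≤ (ℓ : ℝ)⁻¹ ^ 2 → ‖y - 1‖ ≤ (ℓ : ℝ)⁻¹ ^ 2 →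
      ‖x * y - 1‖ ≤ (ℓ : ℝ)⁻¹ ^ 2 := by
    intro x y hx hy
    have e1 : x * y - 1 = (x - 1) * (y - 1) + ((x - 1) + (y - 1)) := by ring
    rw [e1]
    refine (IsUltrametricDist.norm_add_le_max _ _).trans (max_le ?_ ?_)
    · rw [norm_mul]
      calc ‖x - 1‖ * ‖y - 1‖ ≤ (ℓ : ℝ)⁻¹ ^ 2 * 1 :=
            mul_le_mul hx (hy.trans hc1) (norm_nonneg _) hc0.le
        _ = _ := mul_one _
    · exact (IsUltrametricDist.norm_add_le_max _ _).trans (max_le hx hy)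
  let Δ : Subgroup Γ :=
    { carrier := {s | (Bd ((ℓ : ℝ)⁻¹ ^ 2) (LinearMap.toMatrix e e (ρ s) - 1) ∧
          ‖χ s - 1‖ ≤ (ℓ : ℝ)⁻¹ ^ 2) ∧
        (Bd ((ℓ : ℝ)⁻¹ ^ 2) (LinearMap.toMatrix e e (ρ s⁻¹) - 1) ∧
          ‖χ s⁻¹ - 1‖ ≤ (ℓ : ℝ)⁻¹ ^ 2)}
      mul_mem' := by
        rintro s t ⟨⟨a1, a2⟩, a3, a4⟩ ⟨⟨b1, b2⟩, b3, b4⟩
        refine ⟨⟨hb s t a1 b1, ?_⟩, ?_, ?_⟩
        · rw [map_mul]
          exact hbc _ _ a2 b2
        · rw [mul_inv_rev]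
          exact hb _ _ b3 a3
        · rw [mul_inv_rev, map_mul]
          exact hbc _ _ b4 a4
      one_mem' := by
        have h2 : Bd ((ℓ : ℝ)⁻¹ ^ 2) (LinearMap.toMatrix e e (ρ 1) - 1) := by
          rw [h1, sub_self]
          intro i j
          rw [Matrix.zero_apply, norm_zero]
          exact hc0.le
        have h3 : ‖χ 1 - 1‖ ≤ (ℓ : ℝ)⁻¹ ^ 2 := by
          rw [map_one, sub_self, norm_zero]
          exact hc0.le
        refine ⟨⟨h2, h3⟩, ?_, ?_⟩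
        · rw [inv_one]
          exact h2
        · rw [inv_one]
          exact h3
      inv_mem' := by
        rintro s ⟨a1, a2⟩
        refine ⟨a2, ?_⟩
        rw [inv_inv]
        exact a1 }
  have hU : {s : Γ | Bd ((ℓ : ℝ)⁻¹ ^ 2) (LinearMap.toMatrix e e (ρ s) - 1) ∧
      ‖χ s - 1‖ ≤ (ℓ : ℝ)⁻¹ ^ 2} ∈ 𝓝 (1 : Γ) := by
    have h2 : ∀ᶠ s in 𝓝 (1 : Γ), ∀ i j,
        ‖(LinearMap.toMatrix e e (ρ s) - 1) i j‖ ≤ (ℓ : ℝ)⁻¹ ^ 2 := by
      rw [eventually_all]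
      intro i
      rw [eventually_all]
      intro j
      have h3 : Tendsto (fun s => ‖LinearMap.toMatrix e e (ρ s) i j -
          (1 : Matrix (Fin n) (Fin n) ℚ_[ℓ]) i j‖) (𝓝 1) (𝓝 ‖LinearMap.toMatrix e e (ρ 1) i j -
          (1 : Matrix (Fin n) (Fin n) ℚ_[ℓ]) i j‖) :=
        ((hρ i j).sub continuous_const).norm.tendsto 1
      rw [h1, sub_self, norm_zero] at h3
      filter_upwards [h3.eventually (gt_mem_nhds hc0)] with s hs
      rw [Matrix.sub_apply]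
      exact hs.le
    have h4 : ∀ᶠ s in 𝓝 (1 : Γ), ‖χ s - 1‖ ≤ (ℓ : ℝ)⁻¹ ^ 2 := by
      have h3 : Tendsto (fun s => ‖χ s - 1‖) (𝓝 1) (𝓝 ‖χ 1 - 1‖) :=
        (hχ.sub continuous_const).norm.tendsto 1
      rw [map_one, sub_self, norm_zero] at h3
      filter_upwards [h3.eventually (gt_mem_nhds hc0)] with s hs
      exact hs.le
    filter_upwards [h2, h4] with s hs1 hs2
    exact ⟨hs1, hs2⟩
  have hopen : IsOpen (Δ : Set Γ) := by
    apply Subgroup.isOpen_of_mem_nhds Δ (g := 1)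
    have h5 : {s : Γ | Bd ((ℓ : ℝ)⁻¹ ^ 2) (LinearMap.toMatrix e e (ρ s⁻¹) - 1) ∧
        ‖χ s⁻¹ - 1‖ ≤ (ℓ : ℝ)⁻¹ ^ 2} ∈ 𝓝 (1 : Γ) := by
      have h6 := (continuous_inv (G := Γ)).tendsto 1
      rw [inv_one] at h6
      exact h6 hU
    exact Filter.inter_mem hU h5
  have hfin : Finite (Γ ⧸ Δ) := Subgroup.quotient_finite_of_isOpen Δ hopen
  exact ⟨Δ, Subgroup.finiteIndex_of_finite_quotient, fun s hs => hs.1⟩

/-- An endomorphism which commutes with the Lie algebra of the Tate classes commutes with a subgroup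
of finite index. -/
theorem comm_fin (e : Basis (Fin n) ℚ_[ℓ] V) {Γ : Type*} [Group Γ] [TopologicalSpace Γ]
    [IsTopologicalGroup Γ] [CompactSpace Γ]
    (ρ : Representation ℚ_[ℓ] Γ V) (χ : Γ →* ℚ_[ℓ])
    (hρ : ∀ i j, Continuous fun s => LinearMap.toMatrix e e (ρ s) i j) (hχ : Continuous χ)
    (P : Module.End ℚ_[ℓ] V) (hP : ∀ X ∈ lieT ρ χ, X * P = P * X) :
    ∃ Δ : Subgroup Γ, Δ.FiniteIndex ∧ ∀ s ∈ Δ, ∀ v, P (ρ s v) = ρ s (P v) := by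
  obtain ⟨Δ, hΔ, h⟩ := nbh e ρ χ hρ hχ
  refine ⟨Δ, hΔ, fun s hs v => ?_⟩
  have h1 := comm_elt e ρ χ s (h s hs).1 (h s hs).2 P hP
  exact (congrArg (fun A : Module.End ℚ_[ℓ] V => A v) h1).symm

end Pool.Agent.TH686.MT
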