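import Mathlib

/-!
# Positivity of the trace form
-/

set_option autoImplicit false

namespace Pool.Agent.TH686.MT

open Module

/-- A real endomorphism which is skew for a positive definite symmetric form and has a square with
trace zero is zero. -/
theorem skew_zero {T : Type*} [AddCommGroup T] [Module ℝ T] [FiniteDimensional ℝ T]
    (g : LinearMap.BilinForm ℝ T) (hs : ∀ u v, g u v = g v u) (hpos : ∀ u, u ≠ 0 → 0 < g u u)
    (N : Module.End ℝ T) (hN : ∀ u v, g (N u) v = - g u (N v))
    (htr : LinearMap.trace ℝ T (N ∘ₗ N) = 0) : N = 0 := by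
  have hsym : LinearMap.IsSymm g := ⟨fun u v => by simpa using hs u v⟩
  obtain ⟨v, hv⟩ := LinearMap.BilinForm.exists_orthogonal_basis hsym
  have hg0 : ∀ u, 0 ≤ g u u := by
    intro u
    by_cases h : u = 0
    · rw [h, map_zero]
    · exact (hpos u h).le
  have hrep : ∀ x i, g x (v i) = v.repr x i * g (v i) (v i) := by
    intro x i
    conv_lhs => rw [← v.sum_repr x]
    rw [map_sum, LinearMap.sum_apply, Finset.sum_eq_single i]
    · rw [map_smul, LinearMap.smul_apply, smul_eq_mul]
    · intro j _ hj
      rw [map_smul, LinearMap.smul_apply, smul_eq_mul]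
      have : g (v j) (v i) = 0 := hv hj
      rw [this, mul_zero]
    · intro h
      exact absurd (Finset.mem_univ i) h
  have hpi : ∀ i, 0 < g (v i) (v i) := fun i => hpos _ (v.ne_zero i)
  have hterm : ∀ i, v.repr ((N ∘ₗ N) (v i)) i = - (g (N (v i)) (N (v i)) / g (v i) (v i)) := by
    intro i
    have h1 := hrep ((N ∘ₗ N) (v i)) i
    rw [LinearMap.comp_apply, hN] at h1
    rw [LinearMap.comp_apply, eq_comm, ← neg_div, h1, mul_div_assoc, div_self (hpi i).ne', mul_one]
  rw [LinearMap.trace_eq_matrix_trace ℝ v, Matrix.trace] at htr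
  simp only [Matrix.diag_apply, LinearMap.toMatrix_apply, hterm] at htr
  rw [Finset.sum_neg_distrib, neg_eq_zero, Finset.sum_eq_zero_iff_of_nonneg
    (fun i _ => div_nonneg (hg0 _) (hg0 _))] at htr
  refine v.ext fun i => ?_
  have h1 := htr i (Finset.mem_univ i)
  rw [div_eq_zero_iff] at h1
  rcases h1 with h1 | h1
  · rw [LinearMap.zero_apply]
    by_contra h
    exact (hpos _ h).ne' h1
  · exact absurd h1 (hpi i).ne'

theorem ros (W T : Type*) [AddCommGroup W] [Module ℚ W] [FiniteDimensional ℚ W] [AddCommGroup T]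
    [Module ℂ T] (per : W →+ T) (n : ℕ) (b : Basis (Fin n) ℚ W) (b' : Basis (Fin n) ℝ T)
    (hb : ∀ i, b' i = per (b i)) (ω₀ : W →ₗ[ℚ] W →ₗ[ℚ] ℚ) (E : T →ₗ[ℝ] T →ₗ[ℝ] ℝ)
    (hE : ∀ x y, E (per x) (per y) = ω₀ x y)
    (hI : ∀ u v, E (Complex.I • u) (Complex.I • v) = E u v)
    (ha : ∀ u, E u u = 0) (hpos : ∀ u, u ≠ 0 → 0 < E (Complex.I • u) u)
    (P : W →ₗ[ℚ] W) (P' : T →ₗ[ℂ] T) (hP : ∀ w, P' (per w) = per (P w))
    (hskew : ∀ u v, ω₀ (P u) v + ω₀ u (P v) = 0) (htr : LinearMap.trace ℚ W (P ∘ₗ P) = 0) :
    P = 0 := by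
  have hfd : FiniteDimensional ℝ T := Module.Finite.of_basis b'
  have hanti : ∀ u v, E u v = - E v u := by
    intro u v
    have h1 := ha (u + v)
    simp only [map_add, LinearMap.add_apply, ha, zero_add, add_zero] at h1
    linarith
  -- `P'` is skew
  have hskew' : ∀ u v : T, E (P' u) v + E u (P' v) = 0 := by
    have h1 : ∀ i j, E (P' (b' i)) (b' j) + E (b' i) (P' (b' j)) = 0 := by
      intro i j
      rw [hb, hb, hP, hP, hE, hE]
      have := hskew (b i) (b j)
      exact_mod_cast this
    have h2 : ∀ i (v : T), E (P' (b' i)) v + E (b' i) (P' v) = 0 := by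
      intro i v
      have e : (E (P' (b' i)) + (E (b' i)) ∘ₗ (P'.restrictScalars ℝ)) = 0 := by
        refine b'.ext fun j => ?_
        rw [LinearMap.add_apply, LinearMap.comp_apply, LinearMap.restrictScalars_apply,
          LinearMap.zero_apply]
        exact h1 i j
      have := congrArg (fun f => f v) e
      simpa using this
    intro u v
    have e : (E.flip v ∘ₗ (P'.restrictScalars ℝ) + E.flip (P' v)) = 0 := by
      refine b'.ext fun i => ?_
      rw [LinearMap.add_apply, LinearMap.comp_apply, LinearMap.restrictScalars_apply,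
        LinearMap.zero_apply, LinearMap.flip_apply, LinearMap.flip_apply]
      exact h2 i v
    have := congrArg (fun f => f u) e
    simpa using this
  -- the positive form
  set J : T →ₗ[ℝ] T := (Complex.I • (LinearMap.id : T →ₗ[ℂ] T)).restrictScalars ℝ with hJ
  have hJa : ∀ u, J u = Complex.I • u := fun u => rfl
  have hPJ : ∀ u, P' (J u) = J (P' u) := by
    intro u
    rw [hJa, hJa, map_smul]
  set g : LinearMap.BilinForm ℝ T := E ∘ₗ J with hg
  have hga : ∀ u v, g u v = E (J u) v := fun u v => rfl
  have hJJ : ∀ u, J (J u) = - u := by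
    intro u
    rw [hJa, hJa, smul_smul, Complex.I_mul_I, neg_smul, one_smul]
  have hgs : ∀ u v, g u v = g v u := by
    intro u v
    rw [hga, hga]
    have h1 := hI (J u) v
    rw [← hJa, ← hJa, hJJ, map_neg, LinearMap.neg_apply, hanti u (J v), neg_neg] at h1
    exact h1.symm
  have hN0 := skew_zero g hgs (fun u hu => by rw [hga, hJa]; exact hpos u hu)
    (P'.restrictScalars ℝ) (fun u v => by
      rw [hga, hga]
      have h1 := hskew' (J u) v
      rw [hPJ] at h1
      exact eq_neg_of_add_eq_zero_left h1) (by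
      -- the traces
      have hM : LinearMap.toMatrix b' b' (P'.restrictScalars ℝ) =
          (LinearMap.toMatrix b b P).map (algebraMap ℚ ℝ) := by
        ext i j
        rw [LinearMap.toMatrix_apply, Matrix.map_apply, LinearMap.toMatrix_apply,
          LinearMap.restrictScalars_apply, hb, hP]
        have e : per (P (b j)) = ∑ l, ((b.repr (P (b j)) l : ℚ) : ℝ) • b' l := by
          conv_lhs => rw [← b.sum_repr (P (b j)), map_sum]
          refine Finset.sum_congr rfl fun l _ => ?_
          rw [hb]
          exact map_ratCast_smul per ℚ ℝ (b.repr (P (b j)) l) (b l)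
        rw [e, b'.repr_sum_self]
        rfl
      rw [LinearMap.trace_eq_matrix_trace ℝ b', LinearMap.toMatrix_comp b' b' b', hM,
        ← Matrix.map_mul, ← LinearMap.toMatrix_comp b b b]
      rw [LinearMap.trace_eq_matrix_trace ℚ b] at htr
      rw [Matrix.trace, ← map_zero (algebraMap ℚ ℝ), ← htr, Matrix.trace, map_sum]
      rfl)
  -- `per` is injective
  have hinj : ∀ w, per w = 0 → w = 0 := by
    intro w hw
    have h8 : per w = ∑ i, ((b.repr w i : ℚ) : ℝ) • b' i := by
      conv_lhs => rw [← b.sum_repr w, map_sum]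
      refine Finset.sum_congr rfl fun i _ => ?_
      rw [hb]
      exact map_ratCast_smul per ℚ ℝ (b.repr w i) (b i)
    rw [hw] at h8
    apply b.repr.injective
    ext i
    have h9 := (Fintype.linearIndependent_iff.1 b'.linearIndependent) _ h8.symm i
    rw [map_zero, Finsupp.zero_apply]
    exact_mod_cast h9
  refine LinearMap.ext fun w => ?_
  rw [LinearMap.zero_apply]
  apply hinj
  rw [← hP]
  have := congrArg (fun f => f (per w)) hN0
  simpa using this

end Pool.Agent.TH686.MT
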