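import Mathlib

/-!
# Semisimple actions of normalized spaces of endomorphisms
-/

set_option autoImplicit false

namespace Pool.Agent.TH686.MT

open Module

variable {k V Γ : Type*} [Field k] [AddCommGroup V] [Module k V]

theorem stable_adjoin (𝔥 : Set (Module.End k V)) (U : Submodule k V)
    (hU : ∀ X ∈ 𝔥, ∀ u ∈ U, X u ∈ U) (a : Module.End k V) (ha : a ∈ Algebra.adjoin k 𝔥) :
    ∀ u ∈ U, a u ∈ U := by
  induction ha using Algebra.adjoin_induction with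
  | mem x hx => exact hU x hx
  | algebraMap r =>
    intro u hu
    rw [Module.algebraMap_end_apply]
    exact U.smul_mem r hu
  | add x y _ _ hx hy =>
    intro u hu
    rw [LinearMap.add_apply]
    exact U.add_mem (hx u hu) (hy u hu)
  | mul x y _ _ hx hy =>
    intro u hu
    rw [Module.End.mul_apply]
    exact hx _ (hy u hu)

/-- A stable subspace as a submodule over the generated algebra. -/
def toA (𝔥 : Set (Module.End k V)) (U : Submodule k V) (hU : ∀ X ∈ 𝔥, ∀ u ∈ U, X u ∈ U) :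
    Submodule (Algebra.adjoin k 𝔥) V where
  carrier := U
  zero_mem' := U.zero_mem
  add_mem' := U.add_mem
  smul_mem' := fun a u hu => stable_adjoin 𝔥 U hU a.1 a.2 u hu

theorem conj_adjoin [Group Γ] (ρ : Γ →* Module.End k V) (𝔥 : Set (Module.End k V))
    (hn : ∀ (s : Γ), ∀ X ∈ 𝔥, ρ s * X * ρ s⁻¹ ∈ 𝔥) (s : Γ) (a : Module.End k V)
    (ha : a ∈ Algebra.adjoin k 𝔥) : ρ s * a * ρ s⁻¹ ∈ Algebra.adjoin k 𝔥 := by
  have e : ρ s * ρ s⁻¹ = 1 := by rw [← map_mul, mul_inv_cancel, map_one]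
  have e' : ρ s⁻¹ * ρ s = 1 := by rw [← map_mul, inv_mul_cancel, map_one]
  induction ha using Algebra.adjoin_induction with
  | mem x hx => exact Algebra.subset_adjoin (hn s x hx)
  | algebraMap r =>
    rw [← Algebra.commutes, mul_assoc, e, mul_one]
    exact Subalgebra.algebraMap_mem _ r
  | add x y _ _ hx hy =>
    rw [mul_add, add_mul]
    exact add_mem hx hy
  | mul x y _ _ hx hy =>
    have h : ρ s * (x * y) * ρ s⁻¹ = (ρ s * x * ρ s⁻¹) * (ρ s * y * ρ s⁻¹) := by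
      calc ρ s * (x * y) * ρ s⁻¹ = ρ s * x * 1 * y * ρ s⁻¹ := by noncomm_ring
        _ = ρ s * x * (ρ s⁻¹ * ρ s) * y * ρ s⁻¹ := by rw [e']
        _ = _ := by noncomm_ring
    rw [h]
    exact mul_mem hx hy

/-- The image of a submodule under an element of the group. -/
def mv [Group Γ] (ρ : Γ →* Module.End k V) (𝔥 : Set (Module.End k V))
    (hn : ∀ (s : Γ), ∀ X ∈ 𝔥, ρ s * X * ρ s⁻¹ ∈ 𝔥) (s : Γ)
    (N : Submodule (Algebra.adjoin k 𝔥) V) : Submodule (Algebra.adjoin k 𝔥) V where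
  carrier := {v | ρ s⁻¹ v ∈ N}
  zero_mem' := by
    show ρ s⁻¹ 0 ∈ N
    rw [map_zero]
    exact N.zero_mem
  add_mem' := by
    intro a b ha hb
    show ρ s⁻¹ (a + b) ∈ N
    rw [map_add]
    exact N.add_mem ha hb
  smul_mem' := by
    intro a v hv
    show ρ s⁻¹ (a.1 v) ∈ N
    have h := conj_adjoin ρ 𝔥 hn s⁻¹ a.1 a.2
    rw [inv_inv] at h
    have h1 := N.smul_mem ⟨_, h⟩ hv
    have h2 : (ρ s⁻¹ * a.1 * ρ s) (ρ s⁻¹ v) = ρ s⁻¹ (a.1 v) := by
      rw [Module.End.mul_apply, Module.End.mul_apply, ← Module.End.mul_apply (ρ s) (ρ s⁻¹),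
        ← map_mul, mul_inv_cancel, map_one, Module.End.one_apply]
    rw [← h2]
    exact h1

theorem mem_mv [Group Γ] (ρ : Γ →* Module.End k V) (𝔥 : Set (Module.End k V))
    (hn : ∀ (s : Γ), ∀ X ∈ 𝔥, ρ s * X * ρ s⁻¹ ∈ 𝔥) (s : Γ)
    (N : Submodule (Algebra.adjoin k 𝔥) V) (v : V) : v ∈ mv ρ 𝔥 hn s N ↔ ρ s⁻¹ v ∈ N := Iff.rfl

/-- The order isomorphism. -/
def mvIso [Group Γ] (ρ : Γ →* Module.End k V) (𝔥 : Set (Module.End k V))
    (hn : ∀ (s : Γ), ∀ X ∈ 𝔥, ρ s * X * ρ s⁻¹ ∈ 𝔥) (s : Γ) :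
    Submodule (Algebra.adjoin k 𝔥) V ≃o Submodule (Algebra.adjoin k 𝔥) V where
  toFun := mv ρ 𝔥 hn s
  invFun := mv ρ 𝔥 hn s⁻¹
  left_inv := by
    intro N
    ext v
    rw [mem_mv, mem_mv, inv_inv, ← Module.End.mul_apply, ← map_mul, inv_mul_cancel, map_one,
      Module.End.one_apply]
  right_inv := by
    intro N
    ext v
    rw [mem_mv, mem_mv, inv_inv, ← Module.End.mul_apply, ← map_mul, mul_inv_cancel, map_one,
      Module.End.one_apply]
  map_rel_iff' := by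
    intro N N'
    show mv ρ 𝔥 hn s N ≤ mv ρ 𝔥 hn s N' ↔ N ≤ N'
    constructor
    · intro h v hv
      have h1 : ρ s v ∈ mv ρ 𝔥 hn s N := by
        rw [mem_mv, ← Module.End.mul_apply, ← map_mul, inv_mul_cancel, map_one,
          Module.End.one_apply]
        exact hv
      have h2 := h h1
      rwa [mem_mv, ← Module.End.mul_apply, ← map_mul, inv_mul_cancel, map_one,
          Module.End.one_apply] at h2
    · intro h v hv
      exact h hv

/-- The sum of the simple submodules. -/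
noncomputable def soc (𝔥 : Set (Module.End k V)) : Submodule (Algebra.adjoin k 𝔥) V :=
  sSup {a | IsAtom a}

theorem soc_mv [Group Γ] (ρ : Γ →* Module.End k V) (𝔥 : Set (Module.End k V))
    (hn : ∀ (s : Γ), ∀ X ∈ 𝔥, ρ s * X * ρ s⁻¹ ∈ 𝔥) (s : Γ) :
    mv ρ 𝔥 hn s (soc 𝔥) = soc 𝔥 := by
  have h1 : mvIso ρ 𝔥 hn s (soc 𝔥) = soc 𝔥 := by
    rw [soc, OrderIso.map_sSup]
    apply le_antisymm
    · refine iSup₂_le fun a ha => ?_
      exact le_sSup ((OrderIso.isAtom_iff (mvIso ρ 𝔥 hn s) a).2 ha)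
    · refine sSup_le fun a ha => ?_
      have h2 : IsAtom ((mvIso ρ 𝔥 hn s).symm a) :=
        (OrderIso.isAtom_iff (mvIso ρ 𝔥 hn s).symm a).2 ha
      refine le_trans ?_ (le_iSup₂ (f := fun a (_ : a ∈ {a | IsAtom a}) => mvIso ρ 𝔥 hn s a)
        ((mvIso ρ 𝔥 hn s).symm a) h2)
      rw [OrderIso.apply_symm_apply]
  exact h1

theorem soc_st [Group Γ] (ρ : Γ →* Module.End k V) (𝔥 : Set (Module.End k V))
    (hn : ∀ (s : Γ), ∀ X ∈ 𝔥, ρ s * X * ρ s⁻¹ ∈ 𝔥) (s : Γ) (u : V) (hu : u ∈ soc 𝔥) :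
    ρ s u ∈ soc 𝔥 := by
  have h1 : u ∈ mv ρ 𝔥 hn s⁻¹ (soc 𝔥) := by
    rw [soc_mv]
    exact hu
  rw [mem_mv, inv_inv] at h1
  exact h1

/-- A complement of the socle which is stable is zero. -/
theorem soc_compl [FiniteDimensional k V] (𝔥 : Set (Module.End k V)) (U' : Submodule k V)
    (hU' : ∀ X ∈ 𝔥, ∀ u ∈ U', X u ∈ U') (hd : ∀ v ∈ soc 𝔥, v ∈ U' → v = 0) : U' = ⊥ := by
  have hart : IsArtinian (Algebra.adjoin k 𝔥) V := isArtinian_of_tower k inferInstance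
  have hbot : toA 𝔥 U' hU' = ⊥ := by
    by_contra hne
    obtain ⟨a, ha, hle⟩ := (eq_bot_or_exists_atom_le (toA 𝔥 U' hU')).resolve_left hne
    apply ha.1
    have h1 : a ≤ soc 𝔥 := le_sSup ha
    rw [eq_bot_iff]
    intro v hv
    exact (Submodule.mem_bot _).2 (hd v (h1 hv) (hle hv))
  rw [eq_bot_iff]
  intro v hv
  have h1 : v ∈ toA 𝔥 U' hU' := hv
  rw [hbot] at h1
  exact h1

/-- If the socle is everything, then there are complements. -/
theorem compl_of_soc (𝔥 : Set (Module.End k V)) (htop : soc 𝔥 = ⊤)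
    (U : Submodule k V) (hU : ∀ X ∈ 𝔥, ∀ u ∈ U, X u ∈ U) :
    ∃ U' : Submodule k V, (∀ X ∈ 𝔥, ∀ u ∈ U', X u ∈ U') ∧ IsCompl U U' := by
  have hcl : ComplementedLattice (Submodule (Algebra.adjoin k 𝔥) V) :=
    complementedLattice_of_sSup_atoms_eq_top htop
  obtain ⟨W, hW⟩ := hcl.exists_isCompl (toA 𝔥 U hU)
  refine ⟨W.restrictScalars k, fun X hX u hu => ?_, ?_⟩
  · exact W.smul_mem ⟨X, Algebra.subset_adjoin hX⟩ hu
  · rw [isCompl_iff, disjoint_iff, codisjoint_iff] at hW ⊢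
    constructor
    · rw [eq_bot_iff]
      rintro v ⟨hv1, hv2⟩
      have h1 : v ∈ toA 𝔥 U hU ⊓ W := ⟨hv1, hv2⟩
      rw [hW.1] at h1
      exact h1
    · rw [eq_top_iff]
      intro v _
      have h1 : v ∈ toA 𝔥 U hU ⊔ W := by
        rw [hW.2]
        trivial
      obtain ⟨a, ha, b, hb, h⟩ := Submodule.mem_sup.1 h1
      exact Submodule.mem_sup.2 ⟨a, ha, b, hb, h⟩

/-- A complement of a stable subspace for which the projection commutes is stable. -/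
theorem compl_st [Group Γ] (ρ : Γ →* Module.End k V) (𝔥 : Set (Module.End k V))
    (hc : ∀ P : Module.End k V, (∀ s, P * ρ s = ρ s * P) → ∀ X ∈ 𝔥, X * P = P * X)
    (S U' : Submodule k V) (hS : ∀ s, ∀ u ∈ S, ρ s u ∈ S) (hU'1 : ∀ s, ∀ u ∈ U', ρ s u ∈ U')
    (hU'2 : IsCompl S U') : ∀ X ∈ 𝔥, ∀ u ∈ U', X u ∈ U' := by
  have hdec : ∀ v : V, ∃ a ∈ S, ∃ b ∈ U', a + b = v := by
    intro v
    have h1 : v ∈ S ⊔ U' := by
      rw [hU'2.sup_eq_top]
      trivial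
    obtain ⟨a, ha, b, hb, h⟩ := Submodule.mem_sup.1 h1
    exact ⟨a, ha, b, hb, h⟩
  obtain ⟨P, hP1, hP2⟩ : ∃ P : Module.End k V, (∀ a ∈ S, P a = a) ∧ ∀ b ∈ U', P b = 0 := by
    refine ⟨S.subtype ∘ₗ (Submodule.projectionOnto _ _ hU'2), ?_, ?_⟩
    · intro a ha
      rw [LinearMap.comp_apply]
      have := Submodule.projectionOnto_apply_left hU'2 ⟨a, ha⟩
      rw [this]
      rfl
    · intro b hb
      rw [LinearMap.comp_apply]
      have := Submodule.projectionOnto_apply_right hU'2 ⟨b, hb⟩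
      rw [this, map_zero]
  have hP3 : ∀ v, P v = 0 → v ∈ U' := by
    intro v hv
    obtain ⟨a, ha, b, hb, h⟩ := hdec v
    rw [← h, map_add, hP1 a ha, hP2 b hb, add_zero] at hv
    rw [← h, hv, zero_add]
    exact hb
  have hPc : ∀ s, P * ρ s = ρ s * P := by
    intro s
    refine LinearMap.ext fun v => ?_
    obtain ⟨a, ha, b, hb, h⟩ := hdec v
    rw [Module.End.mul_apply, Module.End.mul_apply, ← h, map_add, map_add, map_add, hP1 a ha,
      hP2 b hb, add_zero, hP1 _ (hS s a ha), hP2 _ (hU'1 s b hb), add_zero]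
  intro X hX u hu
  apply hP3
  have h1 := congrArg (fun f : Module.End k V => f u) (hc P hPc X hX)
  simp only [Module.End.mul_apply] at h1
  rw [← h1, hP2 u hu, map_zero]

/-- A space of endomorphisms which is normalized by a group acting semisimply, and which commutes
with the commutant of the group, acts semisimply. -/
theorem semi [FiniteDimensional k V] [Group Γ]
    (ρ : Γ →* Module.End k V) (𝔥 : Set (Module.End k V))
    (hn : ∀ (s : Γ), ∀ X ∈ 𝔥, ρ s * X * ρ s⁻¹ ∈ 𝔥)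
    (hss : ∀ U : Submodule k V, (∀ s, ∀ u ∈ U, ρ s u ∈ U) →
      ∃ U' : Submodule k V, (∀ s, ∀ u ∈ U', ρ s u ∈ U') ∧ IsCompl U U')
    (hc : ∀ P : Module.End k V, (∀ s, P * ρ s = ρ s * P) → ∀ X ∈ 𝔥, X * P = P * X)
    (U : Submodule k V) (hU : ∀ X ∈ 𝔥, ∀ u ∈ U, X u ∈ U) :
    ∃ U' : Submodule k V, (∀ X ∈ 𝔥, ∀ u ∈ U', X u ∈ U') ∧ IsCompl U U' := by
  have hSst : ∀ s, ∀ u ∈ (soc 𝔥).restrictScalars k, ρ s u ∈ (soc 𝔥).restrictScalars k :=
    fun s u hu => soc_st ρ 𝔥 hn s u hu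
  obtain ⟨U', hU'1, hU'2⟩ := hss _ hSst
  have h1 := compl_st ρ 𝔥 hc _ U' hSst hU'1 hU'2
  have h2 : U' = ⊥ := by
    refine soc_compl 𝔥 U' h1 fun v hv1 hv2 => ?_
    have h2 : v ∈ (soc 𝔥).restrictScalars k ⊓ U' := ⟨hv1, hv2⟩
    rw [hU'2.inf_eq_bot] at h2
    exact (Submodule.mem_bot k).1 h2
  have h3 : (soc 𝔥).restrictScalars k = ⊤ := by
    have := hU'2.sup_eq_top
    rwa [h2, sup_bot_eq] at this
  have h4 : soc 𝔥 = ⊤ := by
    rw [eq_top_iff]
    intro v _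
    have : v ∈ (soc 𝔥).restrictScalars k := by
      rw [h3]
      trivial
    exact this
  exact compl_of_soc 𝔥 h4 U hU

end Pool.Agent.TH686.MT
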