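import Pool.Agent.TH686.MT.Comm
import Pool.Agent.TH686.MT.Semi
import Pool.Agent.TH686.MT.Ros
import Pool.Agent.W516.MT.Main2

/-!
# One quartic Tate class
-/

set_option autoImplicit false
set_option linter.unusedSectionVars false

namespace Pool.Agent.TH686.MT

open Module TensorProduct Pool.Agent.H204R3.SP Pool.Agent.H204R3.GP Pool.Agent.W516.KC
  Pool.Agent.W516.MTD Pool.Agent.W516.DR Pool.Agent.W516.MTM Pool.Agent.W516

noncomputable section

section sym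

variable {k W : Type*} [Field k] [CharZero k] [AddCommGroup W] [Module k W] [FiniteDimensional k W]
  (𝔥 : Submodule k (Module.End k W)) (hnt : KC2.TraceNondeg 𝔥) (ω : W →ₗ[k] W →ₗ[k] k)
  (hsk : ∀ X ∈ 𝔥, ∀ u v, ω (X u) v + ω u (X v) = 0) (halt : ∀ u v, ω u v = - ω v u)

include hsk halt in
theorem EE_symm (u v : W) : KC2.EE 𝔥 hnt ω u v = KC2.EE 𝔥 hnt ω v u := by
  refine KC2.ext_trace 𝔥 hnt (KC2.EE_mem 𝔥 hnt ω u v) (KC2.EE_mem 𝔥 hnt ω v u) fun Z hZ => ?_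
  rw [KC2.EE_trace 𝔥 hnt ω u v hZ, KC2.EE_trace 𝔥 hnt ω v u hZ, halt (Z v) u]
  exact eq_neg_of_add_eq_zero_left (hsk Z hZ u v)

include hsk halt in
theorem EE_symm2 (u v a b : W) :
    ω (KC2.EE 𝔥 hnt ω u v a) b = ω (KC2.EE 𝔥 hnt ω u v b) a := by
  rw [halt (KC2.EE 𝔥 hnt ω u v b) a]
  exact eq_neg_of_add_eq_zero_left (hsk _ (KC2.EE_mem 𝔥 hnt ω u v) a b)

theorem EE_symm3 (u v a b : W) :
    ω (KC2.EE 𝔥 hnt ω u v a) b = ω (KC2.EE 𝔥 hnt ω a b u) v := by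
  rw [← KC2.EE_trace 𝔥 hnt ω a b (KC2.EE_mem 𝔥 hnt ω u v),
    ← KC2.EE_trace 𝔥 hnt ω u v (KC2.EE_mem 𝔥 hnt ω a b), LinearMap.trace_mul_comm]

end sym

variable {k : Type} [Field k] [CharZero k] {W T : Type} [AddCommGroup W] [Module ℚ W]
  [FiniteDimensional ℚ W] [AddCommGroup T] [Module ℂ T] (per : W →+ T)
  {Γ : Type} [Group Γ] (ρ : Representation k Γ (k ⊗[ℚ] W)) (χ : Γ →* k)
  (ω₀ : W →ₗ[ℚ] W →ₗ[ℚ] ℚ) (ω : k ⊗[ℚ] W →ₗ[k] k ⊗[ℚ] W →ₗ[k] k)
  (hper : MTD.IsRationalStructure per) (hR : IsRiemannForm per ω₀)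
  (hωω : ∀ u v : W, ω ((1 : k) ⊗ₜ[ℚ] u) ((1 : k) ⊗ₜ[ℚ] v) = algebraMap ℚ k (ω₀ u v))
  (hωρ : ∀ s u v, ω (ρ s u) (ρ s v) = χ s * ω u v)
  (hD : Deligne per ρ χ) (hC : Centres per ρ χ)
  (hcomm : ∀ P : Module.End k (k ⊗[ℚ] W), (∀ X ∈ lieT ρ χ, X * P = P * X) → P ∈ endos k per)
  (hnt : KC2.TraceNondeg (lieT ρ χ))

include hper hR hωω hωρ hD hC hcomm in
theorem quartic (hΘ : MTD.IsHodgeCombination per (KC2.casimir (lieT ρ χ) hnt ω)) (m : ℕ)
    (φ : MultilinearMap k (fun _ : Fin m × Fin 2 => k ⊗[ℚ] W) k)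
    (hφ : IsTateTensor ρ χ m φ) : MTD.IsHodgeCombination per φ := by
  have hnd₀ := riemann_nondeg per ω₀ hper hR
  have hnd := nondeg_ext ω₀ ω hωω hnd₀
  have hRH := riemann_hodge per ω₀ hR
  -- the endomorphisms that kill the Hodge classes are in the Lie algebra
  have hmem : ∀ Z₀ : Module.End ℚ W, (∀ (m' : ℕ)
      (ψ : MultilinearMap ℚ (fun _ : Fin m' × Fin 2 => W) ℚ), IsHodgeTensor per ψ →
        Kills Z₀ ψ) → Z₀.baseChange k ∈ lieT ρ χ := by
    intro Z₀ hk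
    have hZs : IsSkew ω (Z₀.baseChange k) :=
      skew_ext ω₀ ω hωω ((kills_one2 ω₀ Z₀).1 (hk 1 _ (one2_hodge per ω₀ hRH)))
    have hZk : Kills (Z₀.baseChange k) (KC2.casimir (lieT ρ χ) hnt ω) :=
      kills_span (fun ψ => IsHodgeTensor per ψ) Z₀ (hk 2) _ ((hc_iff per _).1 hΘ)
    obtain ⟨Y, hY, hYc⟩ := KC2.mem_of_kills_casimir (lieT ρ χ) hnt ω
      (fun X hX Y hY => lieT_bracket ρ χ hX hY) hnd hZs hZk
    have h1 : Z₀.baseChange k - Y ∈ lieT ρ χ := by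
      refine hC _ (hcomm _ hYc) (fun P hP => ?_) (fun m φ hφ => ?_)
      · have e1 := comm_endos per ω₀ hper hR Z₀ hk hP
        have e2 := lieT_comm per ρ χ ω₀ ω hper hR hωω hωρ hD hY hP
        refine LinearMap.ext fun z => ?_
        have e3 := congrArg (fun f : Module.End k (k ⊗[ℚ] W) => f z) e1
        have e4 := congrArg (fun f : Module.End k (k ⊗[ℚ] W) => f z) e2
        simp only [Module.End.mul_apply] at e3 e4
        rw [Module.End.mul_apply, Module.End.mul_apply, LinearMap.sub_apply, LinearMap.sub_apply,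
          map_sub, e3, e4]
      · have h2 := kills_span (fun ψ => IsHodgeTensor per ψ) Z₀ (hk m) φ ((hc_iff per φ).1 hφ)
        have h3 := lieT_hc per ρ χ hD hY φ hφ
        intro v
        have h4 : ∀ j, φ (Function.update v j ((Z₀.baseChange k - Y) (v j))) =
            φ (Function.update v j (Z₀.baseChange k (v j))) -
              φ (Function.update v j (Y (v j))) := by
          intro j
          rw [LinearMap.sub_apply, MultilinearMap.map_update_sub]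
        rw [Finset.sum_congr rfl (fun j _ => h4 j), Finset.sum_sub_distrib, h2 v, h3 v, sub_zero]
    have h2 : Z₀.baseChange k = (Z₀.baseChange k - Y) + Y := by abel
    rw [h2]
    exact Submodule.add_mem _ h1 hY
  rw [hc_iff]
  refine form_mem_span (fun ψ => IsHodgeTensor per ψ) φ fun lam => ?_
  refine hodge_of_kills per hper _ fun Z₀ hk => ?_
  exact kills_fcmp lam φ Z₀ (hmem Z₀ hk m φ hφ)

include hper hR hωω hωρ hD hcomm in
theorem rigid (Z : Module.End k (k ⊗[ℚ] W)) (hZs : ∀ u v, ω (Z u) v + ω u (Z v) = 0)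
    (hZc : ∀ P ∈ endos k per, Z * P = P * Z) (hZk : Kills Z (KC2.casimir (lieT ρ χ) hnt ω)) :
    ∃ C ∈ endos k per, (∀ P ∈ endos k per, C * P = P * C) ∧ Z - C ∈ lieT ρ χ := by
  have hnd₀ := riemann_nondeg per ω₀ hper hR
  have hnd := nondeg_ext ω₀ ω hωω hnd₀
  obtain ⟨Y, hY, hYc⟩ := KC2.mem_of_kills_casimir (lieT ρ χ) hnt ω
    (fun X hX Y hY => lieT_bracket ρ χ hX hY) hnd hZs hZk
  refine ⟨Z - Y, hcomm _ hYc, fun P hP => ?_, ?_⟩
  · have e1 := hZc P hP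
    have e2 := lieT_comm per ρ χ ω₀ ω hper hR hωω hωρ hD hY hP
    refine LinearMap.ext fun z => ?_
    have e3 := congrArg (fun f : Module.End k (k ⊗[ℚ] W) => f z) e1
    have e4 := congrArg (fun f : Module.End k (k ⊗[ℚ] W) => f z) e2
    simp only [Module.End.mul_apply] at e3 e4
    rw [Module.End.mul_apply, Module.End.mul_apply, LinearMap.sub_apply, LinearMap.sub_apply,
      map_sub, e3, e4]
  · have e1 : Z - (Z - Y) = Y := by
      refine LinearMap.ext fun z => ?_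
      rw [LinearMap.sub_apply, LinearMap.sub_apply]
      abel
    rw [e1]
    exact hY

include hωρ in
theorem invar (s : Γ) (v : Fin 2 × Fin 2 → k ⊗[ℚ] W) :
    KC2.casimir (lieT ρ χ) hnt ω (fun l => ρ s (v l)) =
      χ s ^ 2 * KC2.casimir (lieT ρ χ) hnt ω v := by
  refine KC2.casimir_inv (lieT ρ χ) hnt ω (g := ρ s) (g' := ρ s⁻¹) ?_ ?_ (hωρ s) ?_ ?_ v
  · rw [← map_mul, inv_mul_cancel, map_one]
  · rw [← map_mul, mul_inv_cancel, map_one]
  · intro X hX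
    exact lieT_conj ρ χ s hX
  · intro X hX
    have h1 := lieT_conj ρ χ s⁻¹ hX
    rwa [inv_inv] at h1

end

end Pool.Agent.TH686.MT
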