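import Mathlib

/-!
# Matrices over the `ℓ`-adic numbers which are congruent to one
-/

set_option autoImplicit false

namespace Pool.Agent.TH686.MT

open Module Filter Topology

variable {ℓ : ℕ} [hℓ : Fact ℓ.Prime] {n : ℕ}

/-- All entries have absolute value at most `c`. -/
def Bd (c : ℝ) (A : Matrix (Fin n) (Fin n) ℚ_[ℓ]) : Prop := ∀ i j, ‖A i j‖ ≤ c

theorem Bd.mul {c d : ℝ} (hc : 0 ≤ c) (hd : 0 ≤ d) {A B : Matrix (Fin n) (Fin n) ℚ_[ℓ]}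
    (hA : Bd c A) (hB : Bd d B) : Bd (c * d) (A * B) := by
  intro i j
  rw [Matrix.mul_apply]
  refine IsUltrametricDist.norm_sum_le_of_forall_le_of_nonneg (mul_nonneg hc hd) fun l _ => ?_
  rw [norm_mul]
  exact mul_le_mul (hA i l) (hB l j) (norm_nonneg _) hc

theorem Bd.add {c : ℝ} {A B : Matrix (Fin n) (Fin n) ℚ_[ℓ]}
    (hA : Bd c A) (hB : Bd c B) : Bd c (A + B) := by
  intro i j
  rw [Matrix.add_apply]
  exact (IsUltrametricDist.norm_add_le_max _ _).trans (max_le (hA i j) (hB i j))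

theorem Bd.neg {c : ℝ} {A : Matrix (Fin n) (Fin n) ℚ_[ℓ]}
    (hA : Bd c A) : Bd c (-A) := by
  intro i j
  rw [Matrix.neg_apply, norm_neg]
  exact hA i j

theorem Bd.sub {c : ℝ} {A B : Matrix (Fin n) (Fin n) ℚ_[ℓ]}
    (hA : Bd c A) (hB : Bd c B) : Bd c (A - B) := by
  rw [sub_eq_add_neg]
  exact hA.add hB.neg

theorem Bd.mono {c d : ℝ} (h : c ≤ d) {A : Matrix (Fin n) (Fin n) ℚ_[ℓ]}
    (hA : Bd c A) : Bd d A := fun i j => (hA i j).trans h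

theorem Bd.smul {c : ℝ} (a : ℚ_[ℓ]) {A : Matrix (Fin n) (Fin n) ℚ_[ℓ]}
    (hA : Bd c A) : Bd (‖a‖ * c) (a • A) := by
  intro i j
  rw [Matrix.smul_apply, smul_eq_mul, norm_mul]
  exact mul_le_mul_of_nonneg_left (hA i j) (norm_nonneg _)

theorem Bd.sum {ι : Type*} {c : ℝ} (hc : 0 ≤ c) (s : Finset ι)
    {A : ι → Matrix (Fin n) (Fin n) ℚ_[ℓ]} (hA : ∀ i ∈ s, Bd c (A i)) : Bd c (∑ i ∈ s, A i) := by
  classical
  induction s using Finset.induction_on with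
  | empty =>
    intro i j
    rw [Finset.sum_empty, Matrix.zero_apply, norm_zero]
    exact hc
  | insert a s ha ih =>
    rw [Finset.sum_insert ha]
    exact (hA a (Finset.mem_insert_self _ _)).add
      (ih fun i hi => hA i (Finset.mem_insert_of_mem hi))

theorem bd_one : Bd 1 (1 : Matrix (Fin n) (Fin n) ℚ_[ℓ]) := by
  intro i j
  rw [Matrix.one_apply]
  split_ifs <;> simp

theorem bd_natCast (m : ℕ) : Bd 1 ((m : ℚ_[ℓ]) • (1 : Matrix (Fin n) (Fin n) ℚ_[ℓ])) := by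
  refine (bd_one.smul (m : ℚ_[ℓ])).mono ?_
  rw [mul_one]
  exact Padic.norm_int_le_one (m : ℤ)

theorem lp : (0 : ℝ) < ℓ := by exact_mod_cast hℓ.out.pos

theorem lp1 : (1 : ℝ) < ℓ := by exact_mod_cast hℓ.out.one_lt

theorem bd_one_of {c : ℝ} (hc : c ≤ 1) {T : Matrix (Fin n) (Fin n) ℚ_[ℓ]} (hT : Bd c (T - 1)) :
    Bd 1 T := by
  have h := (hT.mono hc).add bd_one
  rwa [sub_add_cancel] at h

/-- Powers. -/
theorem bd_pow {c : ℝ} (hc0 : 0 ≤ c) (hc : c ≤ 1) {T : Matrix (Fin n) (Fin n) ℚ_[ℓ]}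
    (hT : Bd c (T - 1)) (m : ℕ) : Bd c (T ^ m - 1) := by
  induction m with
  | zero =>
    rw [pow_zero, sub_self]
    intro i j
    rw [Matrix.zero_apply, norm_zero]
    exact hc0
  | succ m ih =>
    have h1 : T ^ (m + 1) - 1 = T ^ m * (T - 1) + (T ^ m - 1) := by
      rw [pow_succ]
      noncomm_ring
    rw [h1]
    have h2 := (bd_one_of hc ih).mul zero_le_one hc0 hT
    rw [one_mul] at h2
    exact h2.add ih

/-- The `ℓ`-th power. -/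
theorem bd_pow_prime {c : ℝ} (hc0 : 0 ≤ c) (hc : c ≤ (ℓ : ℝ)⁻¹)
    {T : Matrix (Fin n) (Fin n) ℚ_[ℓ]} (hT : Bd c (T - 1)) : Bd ((ℓ : ℝ)⁻¹ * c) (T ^ ℓ - 1) := by
  have hl1 : (ℓ : ℝ)⁻¹ ≤ 1 := inv_le_one_of_one_le₀ lp1.le
  rw [← geom_sum_mul]
  refine Bd.mul (inv_nonneg.2 lp.le) hc0 ?_ hT
  have h1 : ∑ i ∈ Finset.range ℓ, T ^ i =
      (ℓ : ℚ_[ℓ]) • (1 : Matrix (Fin n) (Fin n) ℚ_[ℓ]) + ∑ i ∈ Finset.range ℓ, (T ^ i - 1) := by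
    rw [Finset.sum_sub_distrib, Finset.sum_const, Finset.card_range, Nat.cast_smul_eq_nsmul]
    abel
  rw [h1]
  refine Bd.add ?_ (Bd.sum (inv_nonneg.2 lp.le) _ fun i _ =>
    (bd_pow hc0 (hc.trans hl1) hT i).mono hc)
  have h2 := (bd_one (ℓ := ℓ) (n := n)).smul (ℓ : ℚ_[ℓ])
  rwa [Padic.norm_p, mul_one] at h2

/-- Powers of matrices congruent to one. -/
theorem pada {T : Matrix (Fin n) (Fin n) ℚ_[ℓ]} (hT : Bd ((ℓ : ℝ)⁻¹ ^ 2) (T - 1)) (k : ℕ) :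
    Bd ((ℓ : ℝ)⁻¹ ^ (2 + k)) (T ^ (ℓ ^ k) - 1) := by
  have hl1 : (ℓ : ℝ)⁻¹ ≤ 1 := inv_le_one_of_one_le₀ lp1.le
  have hl0 : (0 : ℝ) ≤ (ℓ : ℝ)⁻¹ := inv_nonneg.2 lp.le
  induction k with
  | zero => simpa using hT
  | succ k ih =>
    rw [pow_succ ℓ k, pow_mul]
    have h1 := bd_pow_prime (pow_nonneg hl0 _) (by
      calc (ℓ : ℝ)⁻¹ ^ (2 + k) ≤ (ℓ : ℝ)⁻¹ ^ 1 := pow_le_pow_of_le_one hl0 hl1 (by omega)
        _ = _ := pow_one _) ih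
    rw [← pow_succ'] at h1
    exact h1

/-- The commutator with a power. -/
theorem comm_pow {T P : Matrix (Fin n) (Fin n) ℚ_[ℓ]} (hT : Bd ((ℓ : ℝ)⁻¹ ^ 2) (T - 1)) {ρ : ℝ}
    (hρ : 0 ≤ ρ) (hP : Bd ρ (T * P - P * T)) (m : ℕ) :
    Bd ((ℓ : ℝ)⁻¹ ^ 2 * ρ) ((T ^ m * P - P * T ^ m) - (m : ℚ_[ℓ]) • (T * P - P * T)) := by
  have hl1 : (ℓ : ℝ)⁻¹ ≤ 1 := inv_le_one_of_one_le₀ lp1.le
  have hl0 : (0 : ℝ) ≤ (ℓ : ℝ)⁻¹ := inv_nonneg.2 lp.le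
  have hl2 : (ℓ : ℝ)⁻¹ ^ 2 ≤ 1 := pow_le_one₀ hl0 hl1
  have hl20 : 0 ≤ (ℓ : ℝ)⁻¹ ^ 2 := pow_nonneg hl0 2
  induction m with
  | zero =>
    simp only [pow_zero, one_mul, mul_one, sub_self, Nat.cast_zero, zero_smul]
    intro i j
    rw [Matrix.zero_apply, norm_zero]
    positivity
  | succ m ih =>
    have e : (T ^ (m + 1) * P - P * T ^ (m + 1)) - ((m + 1 : ℕ) : ℚ_[ℓ]) • (T * P - P * T) =
        (T ^ m - 1) * (T * P - P * T) +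
        ((T ^ m * P - P * T ^ m) - (m : ℚ_[ℓ]) • (T * P - P * T)) * T +
        (m : ℚ_[ℓ]) • ((T * P - P * T) * (T - 1)) := by
      rw [Nat.cast_succ, add_smul, one_smul, pow_succ]
      simp only [mul_sub, sub_mul, smul_sub, mul_one, one_mul, smul_mul_assoc]
      noncomm_ring
    rw [e]
    refine Bd.add (Bd.add ?_ ?_) ?_
    · exact (bd_pow hl20 hl2 hT m).mul hl20 hρ hP
    · have h1 := ih.mul (by positivity) zero_le_one (bd_one_of hl2 hT)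
      rwa [mul_one] at h1
    · have h1 := (hP.mul hρ hl20 hT).smul (m : ℚ_[ℓ])
      refine h1.mono ?_
      rw [mul_comm ρ]
      exact mul_le_of_le_one_left (by positivity) (Padic.norm_int_le_one (m : ℤ))

/-- The commutator with the `ℓ`-th power. -/
theorem padb {T P : Matrix (Fin n) (Fin n) ℚ_[ℓ]} (hT : Bd ((ℓ : ℝ)⁻¹ ^ 2) (T - 1)) {r : ℝ}
    (hr : 0 ≤ r) (h : Bd ((ℓ : ℝ)⁻¹ * r) (T ^ ℓ * P - P * T ^ ℓ)) : Bd r (T * P - P * T) := by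
  by_contra hcon
  unfold Bd at hcon
  push Not at hcon
  obtain ⟨i, j, hij⟩ := hcon
  obtain ⟨⟨i0, j0⟩, -, hmax⟩ := Finset.exists_max_image (Finset.univ : Finset (Fin n × Fin n))
    (fun p => ‖(T * P - P * T) p.1 p.2‖) ⟨(i, j), Finset.mem_univ _⟩
  set m0 := ‖(T * P - P * T) i0 j0‖ with hm0
  have h1 : r < m0 := lt_of_lt_of_le hij (hmax (i, j) (Finset.mem_univ _))
  have h2 : Bd m0 (T * P - P * T) := fun a b => hmax (a, b) (Finset.mem_univ _)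
  have hm00 : 0 ≤ m0 := norm_nonneg _
  have h3 := comm_pow hT hm00 h2 ℓ
  have h4 : Bd (max ((ℓ : ℝ)⁻¹ * r) ((ℓ : ℝ)⁻¹ ^ 2 * m0)) ((ℓ : ℚ_[ℓ]) • (T * P - P * T)) := by
    have h5 := (h.mono (le_max_left _ ((ℓ : ℝ)⁻¹ ^ 2 * m0))).sub (h3.mono (le_max_right _ _))
    rwa [sub_sub_cancel] at h5
  have h5 := h4 i0 j0
  rw [Matrix.smul_apply, smul_eq_mul, norm_mul, Padic.norm_p, ← hm0] at h5
  have hl0 : (0 : ℝ) < (ℓ : ℝ)⁻¹ := inv_pos.2 lp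
  have hl1 : (ℓ : ℝ)⁻¹ < 1 := inv_lt_one_of_one_lt₀ lp1
  have hm0p : 0 < m0 := lt_of_le_of_lt hr h1
  rcases le_max_iff.1 h5 with h6 | h6
  · have := le_of_mul_le_mul_left h6 hl0
    linarith
  · rw [pow_two, mul_assoc] at h6
    have := le_of_mul_le_mul_left h6 hl0
    nlinarith

/-- The commutators with iterated `ℓ`-th powers. -/
theorem padb_iter {T P : Matrix (Fin n) (Fin n) ℚ_[ℓ]} (hT : Bd ((ℓ : ℝ)⁻¹ ^ 2) (T - 1)) {r : ℝ}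
    (hr : 0 ≤ r) (k : ℕ)
    (h : Bd ((ℓ : ℝ)⁻¹ ^ k * r) (T ^ (ℓ ^ k) * P - P * T ^ (ℓ ^ k))) :
    Bd r (T * P - P * T) := by
  have hl0 : (0 : ℝ) ≤ (ℓ : ℝ)⁻¹ := inv_nonneg.2 lp.le
  have hl1 : (ℓ : ℝ)⁻¹ ≤ 1 := inv_le_one_of_one_le₀ lp1.le
  induction k with
  | zero => simpa using h
  | succ k ih =>
    apply ih
    refine padb (T := T ^ (ℓ ^ k)) ((pada hT k).mono ?_) (by positivity) ?_
    · exact pow_le_pow_of_le_one hl0 hl1 (by omega)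
    · rw [← pow_mul, ← pow_succ]
      rw [pow_succ' _ k, mul_assoc] at h
      exact h

end Pool.Agent.TH686.MT
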